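import Pool.Agent.H703.Stp

/-!
# The Steiner tree problem has a PTAS on confined graphs of bounded highway dimension
-/

set_option autoImplicit false

namespace Pool.Agent.Results.MP_485266_lc.StpConfined

open Pool.Agent.H703 Pool.Agent.NPC

/-- For all `h`, `C` and `ε > 0` there is a polynomial-time `1 + ε` approximation of the Steiner
tree problem on the `C`-confined weighted graphs of highway dimension at most `h`. -/
theorem result (h : ℕ) (C : ℝ) (hC : 0 ≤ C) (ε : ℝ) (hε : 0 < ε) :
    ∃ f : List Bool → List Bool, PolyTime f ∧ ∀ (n : ℕ) (X : WGraph n) (T : List (Fin n)),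
      X.highwayDim ≤ h → X.Confined C → T ≠ [] → ∃ H : X.graph.Subgraph,
        f (bits (X.code, T.map Fin.val)) = bits (X.subCode H) ∧ H.Connected ∧
        (∀ t ∈ T, t ∈ H.verts) ∧
        ∀ H' : X.graph.Subgraph, H'.Connected → (∀ t ∈ T, t ∈ H'.verts) →
          (X.subWeight H : ℝ) ≤ (1 + ε) * (X.subWeight H' : ℝ) :=
  stp_main h hC hε

end Pool.Agent.Results.MP_485266_lc.StpConfined
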