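import Pool.Agent.H703.Stp
import Pool.Agent.H703.HdTwo

/-!
# The Steiner tree problem has a PTAS on graphs of highway dimension at most 2
-/

set_option autoImplicit false

namespace Pool.Agent.Results.MP_485266_lc.StpTwo

open Pool.Agent.H703 Pool.Agent.NPC

/-- For every `ε > 0` there is a polynomial-time algorithm which maps the weight matrix of every
weighted graph of highway dimension at most `2` and every nonempty list of terminals to a connected
subgraph containing the terminals, of weight at most `1 + ε` times the optimum. -/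
theorem result (ε : ℝ) (hε : 0 < ε) :
    ∃ f : List Bool → List Bool, PolyTime f ∧ ∀ (n : ℕ) (X : WGraph n) (T : List (Fin n)),
      X.highwayDim ≤ 2 → T ≠ [] → ∃ H : X.graph.Subgraph,
        f (bits (X.code, T.map Fin.val)) = bits (X.subCode H) ∧ H.Connected ∧
        (∀ t ∈ T, t ∈ H.verts) ∧
        ∀ H' : X.graph.Subgraph, H'.Connected → (∀ t ∈ T, t ∈ H'.verts) →
          (X.subWeight H : ℝ) ≤ (1 + ε) * (X.subWeight H' : ℝ) := by
  obtain ⟨f, hf, h⟩ := stp_main 2 (C := 56) (by norm_num) hε
  exact ⟨f, hf, fun n X T hX hT => h n X T hX (confined_of_two X hX) hT⟩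

end Pool.Agent.Results.MP_485266_lc.StpTwo
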