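import Pool.Agent.H703.Tsp

/-!
# The travelling salesman problem has a PTAS on confined graphs of bounded highway dimension
-/

set_option autoImplicit false

namespace Pool.Agent.Results.MP_485266_lc.TspConfined

open Pool.Agent.H703 Pool.Agent.NPC

/-- For all `h`, `C` and `ε > 0` there is a polynomial-time `1 + ε` approximation of the travelling
salesman problem on the `C`-confined weighted graphs of highway dimension at most `h`. -/
theorem result (h : ℕ) (C : ℝ) (hC : 0 ≤ C) (ε : ℝ) (hε : 0 < ε) :
    ∃ f : List Bool → List Bool, PolyTime f ∧ ∀ (n : ℕ) (X : WGraph n), X.highwayDim ≤ h →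
      X.Confined C → ∃ (v : Fin n) (p : X.graph.Walk v v),
        f (bits X.code) = bits (p.support.map Fin.val) ∧ X.IsTour p ∧
        ∀ (v' : Fin n) (q : X.graph.Walk v' v'), X.IsTour q →
          (X.len p : ℝ) ≤ (1 + ε) * (X.len q : ℝ) :=
  tsp_main h hC hε

end Pool.Agent.Results.MP_485266_lc.TspConfined
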