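import Pool.Agent.H703.Tsp
import Pool.Agent.H703.HdTwo

/-!
# The travelling salesman problem has a PTAS on graphs of highway dimension at most 2
-/

set_option autoImplicit false

namespace Pool.Agent.Results.MP_485266_lc.TspTwo

open Pool.Agent.H703 Pool.Agent.NPC

/-- For every `ε > 0` there is a polynomial-time algorithm which maps the weight matrix of every
weighted graph of highway dimension at most `2` to the vertex sequence of a closed walk visiting
all vertices, of length at most `1 + ε` times the optimum. -/
theorem result (ε : ℝ) (hε : 0 < ε) :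
    ∃ f : List Bool → List Bool, PolyTime f ∧ ∀ (n : ℕ) (X : WGraph n), X.highwayDim ≤ 2 →
      ∃ (v : Fin n) (p : X.graph.Walk v v),
        f (bits X.code) = bits (p.support.map Fin.val) ∧ X.IsTour p ∧
        ∀ (v' : Fin n) (q : X.graph.Walk v' v'), X.IsTour q →
          (X.len p : ℝ) ≤ (1 + ε) * (X.len q : ℝ) := by
  obtain ⟨f, hf, h⟩ := tsp_main 2 (C := 56) (by norm_num) hε
  exact ⟨f, hf, fun n X hX => h n X hX (confined_of_two X hX)⟩

end Pool.Agent.Results.MP_485266_lc.TspTwo
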